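import Mathlib

set_option autoImplicit false
set_option linter.unusedVariables false
set_option linter.unusedSectionVars false

/-!
# Closed permutation groups of a countable set: limits, Baire category, Mycielski
-/

namespace Pool.Agent.SIP

open Equiv

variable {Ω : Type} [DecidableEq Ω]

/-- `K` is closed in the topology of pointwise convergence. -/
def ClosedGp (K : Subgroup (Perm Ω)) : Prop :=
  ∀ f : Perm Ω, (∀ D : Finset Ω, ∃ k ∈ K, ∀ x ∈ D, k x = f x) → f ∈ K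

theorem exists_seq {α : Type*} (R : ℕ → α → α → Prop) (h : ∀ n a, ∃ b, R n a b) (a0 : α) :
    ∃ s : ℕ → α, s 0 = a0 ∧ ∀ n, R n (s n) (s (n + 1)) := by
  choose f hf using h
  exact ⟨fun n => Nat.rec a0 (fun n a => f n a) n, rfl, fun n => hf n _⟩

/-- Limits of permutations. -/
theorem limit_perm {g : ℕ → Perm Ω} {D : ℕ → Finset Ω}
    (hmono : ∀ n, D n ⊆ D (n + 1)) (hagree : ∀ n, ∀ x ∈ D n, g (n + 1) x = g n x)
    (hcover : ∀ x, ∃ n, x ∈ D n) (hcover' : ∀ x, ∃ n, (g n)⁻¹ x ∈ D n) :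
    ∃ f : Perm Ω, ∀ n, ∀ x ∈ D n, f x = g n x := by
  have hm : ∀ m n, n ≤ m → D n ⊆ D m := fun m n h => monotone_nat_of_le_succ hmono h
  have ha : ∀ m n, n ≤ m → ∀ x ∈ D n, g m x = g n x := by
    intro m n h
    induction m, h using Nat.le_induction with
    | base => intro x _; rfl
    | succ m hnm ih =>
      intro x hx
      rw [hagree m x (hm m n hnm hx), ih x hx]
  choose N hN using hcover
  have key : ∀ n, ∀ x ∈ D n, g (N x) x = g n x := by
    intro n x hx
    rcases le_total (N x) n with h | h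
    · exact (ha _ _ h x (hN x)).symm
    · exact ha _ _ h x hx
  have hb : Function.Bijective (fun x => g (N x) x) := by
    constructor
    · intro x y hxy
      simp only at hxy
      have h1 := hm (max (N x) (N y)) (N x) (le_max_left _ _) (hN x)
      have h2 := hm (max (N x) (N y)) (N y) (le_max_right _ _) (hN y)
      rw [key _ x h1, key _ y h2] at hxy
      exact (g _).injective hxy
    · intro y
      obtain ⟨n, hn⟩ := hcover' y
      refine ⟨(g n)⁻¹ y, ?_⟩
      simp only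
      rw [key n _ hn]
      simp
  exact ⟨Equiv.ofBijective _ hb, fun n x hx => key n x hx⟩

theorem limit {K : Subgroup (Perm Ω)} (hcl : ClosedGp K) {g : ℕ → Perm Ω} {D : ℕ → Finset Ω}
    (hK : ∀ n, g n ∈ K)
    (hmono : ∀ n, D n ⊆ D (n + 1)) (hagree : ∀ n, ∀ x ∈ D n, g (n + 1) x = g n x)
    (hcover : ∀ x, ∃ n, x ∈ D n) (hcover' : ∀ x, ∃ n, (g n)⁻¹ x ∈ D n) :
    ∃ f ∈ K, ∀ n, ∀ x ∈ D n, f x = g n x := by
  obtain ⟨f, hf⟩ := limit_perm hmono hagree hcover hcover'
  refine ⟨f, hcl f fun E => ?_, hf⟩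
  have hm : ∀ m n, n ≤ m → D n ⊆ D m := fun m n h => monotone_nat_of_le_succ hmono h
  have : ∃ n, E ⊆ D n := by
    induction E using Finset.induction_on with
    | empty => exact ⟨0, Finset.empty_subset _⟩
    | insert a s _ ih =>
      obtain ⟨n, hn⟩ := ih
      obtain ⟨m, hm'⟩ := hcover a
      refine ⟨max n m, Finset.insert_subset ?_ (hn.trans ?_)⟩
      · exact hm _ _ (le_max_right _ _) hm'
      · exact hm _ _ (le_max_left _ _)
  obtain ⟨n, hn⟩ := this
  exact ⟨g n, hK n, fun x hx => (hf n x (hn hx)).symm⟩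

/-- A set of permutations whose trace on `K` contains a dense open set. -/
def DO (K : Subgroup (Perm Ω)) (O : Set (Perm Ω)) : Prop :=
  ∀ (D : Finset Ω) (k : Perm Ω), k ∈ K → ∃ (D' : Finset Ω) (k' : Perm Ω), k' ∈ K ∧ D ⊆ D' ∧
    (∀ x ∈ D, k' x = k x) ∧ ∀ f ∈ K, (∀ x ∈ D', f x = k' x) → f ∈ O

theorem DO.inter {K : Subgroup (Perm Ω)} {O O' : Set (Perm Ω)} (h : DO K O) (h' : DO K O') :
    DO K (O ∩ O') := by
  intro D k hk
  obtain ⟨D1, k1, hk1, hD1, ha1, hO1⟩ := h D k hk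
  obtain ⟨D2, k2, hk2, hD2, ha2, hO2⟩ := h' D1 k1 hk1
  refine ⟨D2, k2, hk2, hD1.trans hD2, fun x hx => ?_, fun f hf hfx => ⟨?_, hO2 f hf hfx⟩⟩
  · rw [ha2 x (hD1 hx), ha1 x hx]
  · exact hO1 f hf fun x hx => by rw [hfx x (hD2 hx), ha2 x hx]

theorem DO.univ {K : Subgroup (Perm Ω)} : DO K Set.univ :=
  fun D k hk => ⟨D, k, hk, subset_rfl, fun _ _ => rfl, fun _ _ _ => trivial⟩

theorem DO.mono {K : Subgroup (Perm Ω)} {O O' : Set (Perm Ω)} (h : DO K O) (hs : O ⊆ O') :
    DO K O' := by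
  intro D k hk
  obtain ⟨D1, k1, hk1, hD1, ha1, hO1⟩ := h D k hk
  exact ⟨D1, k1, hk1, hD1, ha1, fun f hf hx => hs (hO1 f hf hx)⟩

variable [Countable Ω] [Nonempty Ω]

/-- The Baire category theorem for a closed permutation group. -/
theorem baire {K : Subgroup (Perm Ω)} (hcl : ClosedGp K) {O : ℕ → Set (Perm Ω)}
    (hO : ∀ n, DO K (O n)) (D : Finset Ω) {k : Perm Ω} (hk : k ∈ K) :
    ∃ f ∈ K, (∀ x ∈ D, f x = k x) ∧ ∀ n, f ∈ O n := by
  obtain ⟨e, he⟩ := exists_surjective_nat Ω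
  let S := {p : Finset Ω × Perm Ω // p.2 ∈ K}
  let R : ℕ → S → S → Prop := fun n p q =>
    p.1.1 ⊆ q.1.1 ∧ (∀ x ∈ p.1.1, q.1.2 x = p.1.2 x) ∧ e n ∈ q.1.1 ∧ q.1.2⁻¹ (e n) ∈ q.1.1 ∧
      ∀ f ∈ K, (∀ x ∈ q.1.1, f x = q.1.2 x) → f ∈ O n
  have hstep : ∀ n p, ∃ q, R n p q := by
    rintro n ⟨⟨C, g⟩, hg⟩
    obtain ⟨D', k', hk', hD', ha, hO'⟩ := hO n C g hg
    refine ⟨⟨⟨D' ∪ {e n, k'⁻¹ (e n)}, k'⟩, hk'⟩, ?_, ha, ?_, ?_, ?_⟩
    · exact hD'.trans Finset.subset_union_left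
    · simp
    · simp
    · intro f hf hx
      exact hO' f hf fun x hx' => hx x (Finset.mem_union_left _ hx')
  obtain ⟨s, hs0, hs⟩ := exists_seq R hstep ⟨⟨D, k⟩, hk⟩
  obtain ⟨f, hfK, hf⟩ := limit hcl (g := fun n => (s n).1.2) (D := fun n => (s n).1.1)
    (fun n => (s n).2) (fun n => (hs n).1) (fun n => (hs n).2.1)
    (fun x => by obtain ⟨n, rfl⟩ := he x; exact ⟨n + 1, (hs n).2.2.1⟩)
    (fun x => by obtain ⟨n, rfl⟩ := he x; exact ⟨n + 1, (hs n).2.2.2.1⟩)
  refine ⟨f, hfK, fun x hx => ?_, fun n => ?_⟩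
  · have := hf 0 x (by simp only [hs0]; exact hx)
    rw [this]; simp only [hs0]
  · exact (hs n).2.2.2.2 f hfK (hf (n + 1))

/-- A set whose trace on `K` is comeagre. -/
def Comeagre (K : Subgroup (Perm Ω)) (S : Set (Perm Ω)) : Prop :=
  ∃ O : ℕ → Set (Perm Ω), (∀ n, DO K (O n)) ∧ ∀ f ∈ K, (∀ n, f ∈ O n) → f ∈ S

omit [Countable Ω] [Nonempty Ω] in
theorem Comeagre.of_countable {K : Subgroup (Perm Ω)} {ι : Type*} [Countable ι]
    {O : ι → Set (Perm Ω)} (hO : ∀ i, DO K (O i)) : Comeagre K {f | ∀ i, f ∈ O i} := by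
  rcases isEmpty_or_nonempty ι with h | h
  · exact ⟨fun _ => Set.univ, fun _ => DO.univ, fun f _ _ i => (IsEmpty.false i).elim⟩
  · obtain ⟨e, he⟩ := exists_surjective_nat ι
    refine ⟨fun n => O (e n), fun n => hO _, fun f _ hf i => ?_⟩
    obtain ⟨n, rfl⟩ := he i
    exact hf n

omit [Countable Ω] [Nonempty Ω] in
theorem Comeagre.mono {K : Subgroup (Perm Ω)} {S S' : Set (Perm Ω)} (h : Comeagre K S)
    (hs : ∀ f ∈ K, f ∈ S → f ∈ S') : Comeagre K S' := by
  obtain ⟨O, hO, h⟩ := h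
  exact ⟨O, hO, fun f hf hx => hs f hf (h f hf hx)⟩

omit [Countable Ω] [Nonempty Ω] in
theorem Comeagre.inter {K : Subgroup (Perm Ω)} {S S' : Set (Perm Ω)} (h : Comeagre K S)
    (h' : Comeagre K S') : Comeagre K (S ∩ S') := by
  obtain ⟨O, hO, h⟩ := h
  obtain ⟨O', hO', h'⟩ := h'
  have := Comeagre.of_countable (K := K) (ι := ℕ ⊕ ℕ) (O := Sum.elim O O')
    (by rintro (n | n); exacts [hO n, hO' n])
  refine this.mono fun f hf hx => ⟨h f hf fun n => hx (Sum.inl n), h' f hf fun n => hx (Sum.inr n)⟩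

theorem Comeagre.exists_mem {K : Subgroup (Perm Ω)} (hcl : ClosedGp K) {S : Set (Perm Ω)}
    (h : Comeagre K S) (D : Finset Ω) {k : Perm Ω} (hk : k ∈ K) :
    ∃ f ∈ K, (∀ x ∈ D, f x = k x) ∧ f ∈ S := by
  obtain ⟨O, hO, h⟩ := h
  obtain ⟨f, hf, h1, h2⟩ := baire hcl hO D hk
  exact ⟨f, hf, h1, h f hf h2⟩

omit [Countable Ω] [Nonempty Ω] in
/-- Right translates of comeagre sets are comeagre. -/
theorem Comeagre.translate {K : Subgroup (Perm Ω)} {S : Set (Perm Ω)}
    (h : Comeagre K S) {t : Perm Ω} (ht : t ∈ K) : Comeagre K {f | f * t ∈ S} := by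
  obtain ⟨O, hO, h⟩ := h
  refine ⟨fun n => {f | f * t ∈ O n}, fun n => ?_, fun f hf hx => h _ (K.mul_mem hf ht) hx⟩
  intro D k hk
  obtain ⟨D', k', hk', hD', ha, hO'⟩ := hO n (D.image (t⁻¹ : Perm Ω)) (k * t) (K.mul_mem hk ht)
  refine ⟨D'.image t, k' * t⁻¹, K.mul_mem hk' (K.inv_mem ht), ?_, ?_, ?_⟩
  · intro x hx
    rw [Finset.mem_image]
    exact ⟨t⁻¹ x, hD' (Finset.mem_image_of_mem _ hx), by simp⟩
  · intro x hx
    rw [Perm.mul_apply, ha _ (Finset.mem_image_of_mem _ hx)]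
    simp
  · intro f hf hx
    refine hO' _ (K.mul_mem hf ht) fun x hx' => ?_
    rw [Perm.mul_apply, hx _ (Finset.mem_image_of_mem _ hx')]
    simp

/-! ### Mycielski's theorem -/

omit [Countable Ω] [Nonempty Ω] in
theorem shrink {K : Subgroup (Perm Ω)} {O : Set (Perm Ω)} (hO : DO K O) {I : Type*}
    [DecidableEq I] (P : Finset (I × I)) (hP : ∀ p ∈ P, p.1 ≠ p.2) :
    ∀ (F : I → Perm Ω) (hF : ∀ i, F i ∈ K) (D : Finset Ω), ∃ (F' : I → Perm Ω) (D' : Finset Ω),
      D ⊆ D' ∧ (∀ i, F' i ∈ K) ∧ (∀ i, ∀ x ∈ D, F' i x = F i x) ∧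
      ∀ p ∈ P, ∀ f ∈ K, ∀ g ∈ K, (∀ x ∈ D', f x = F' p.1 x) → (∀ x ∈ D', g x = F' p.2 x) →
        f⁻¹ * g ∈ O := by
  induction P using Finset.induction_on with
  | empty =>
    intro F hF D
    exact ⟨F, D, subset_rfl, hF, fun _ _ _ => rfl, by simp⟩
  | insert p P hp ih =>
    intro F hF D
    obtain ⟨F1, D1, hD1, hF1, ha1, hP1⟩ := ih (fun p hp => hP p (Finset.mem_insert_of_mem hp)) F hF D
    obtain ⟨D2, k, hk, hD2, ha2, hO2⟩ := hO D1 ((F1 p.1)⁻¹ * F1 p.2)
      (K.mul_mem (K.inv_mem (hF1 _)) (hF1 _))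
    have hne : p.1 ≠ p.2 := hP p (Finset.mem_insert_self _ _)
    refine ⟨Function.update F1 p.2 (F1 p.1 * k), D2 ∪ D2.image k, ?_, ?_, ?_, ?_⟩
    · exact (hD1.trans hD2).trans Finset.subset_union_left
    · intro i
      by_cases hi : i = p.2
      · subst hi; rw [Function.update_self]; exact K.mul_mem (hF1 _) hk
      · rw [Function.update_of_ne hi]; exact hF1 i
    · intro i x hx
      by_cases hi : i = p.2
      · subst hi
        rw [Function.update_self, Perm.mul_apply, ha2 x (hD1 hx), ← ha1 _ x hx]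
        simp
      · rw [Function.update_of_ne hi]; exact ha1 i x hx
    · have hagree : ∀ i, ∀ x ∈ D1, Function.update F1 p.2 (F1 p.1 * k) i x = F1 i x := by
        intro i x hx
        by_cases hi : i = p.2
        · subst hi
          rw [Function.update_self, Perm.mul_apply, ha2 x hx]
          simp
        · rw [Function.update_of_ne hi]
      intro q hq f hf g hg hfx hgx
      rw [Finset.mem_insert] at hq
      rcases hq with rfl | hq
      · apply hO2 _ (K.mul_mem (K.inv_mem hf) hg)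
        intro x hx
        rw [Perm.mul_apply, hgx x (Finset.mem_union_left _ hx), Function.update_self,
          Perm.mul_apply]
        have h1 := hfx (k x) (Finset.mem_union_right _ (Finset.mem_image_of_mem _ hx))
        rw [Function.update_of_ne hne] at h1
        rw [← h1]
        simp
      · apply hP1 q hq f hf g hg
        · intro x hx
          rw [hfx x (Finset.mem_union_left _ (hD2 hx)), hagree _ x hx]
        · intro x hx
          rw [hgx x (Finset.mem_union_left _ (hD2 hx)), hagree _ x hx]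

/-- Initial segments of a branch, newest entry first. -/
def pre (α : ℕ → Bool) : ℕ → List Bool
  | 0 => []
  | (n + 1) => α n :: pre α n

theorem pre_length (α : ℕ → Bool) (n : ℕ) : (pre α n).length = n := by
  induction n with
  | zero => rfl
  | succ n ih => simp [pre, ih]

theorem pre_ne {α β : ℕ → Bool} {n : ℕ} (h : α n ≠ β n) : ∀ m, n < m → pre α m ≠ pre β m := by
  intro m hm
  induction m with
  | zero => omega
  | succ m ih =>
    intro he
    simp only [pre, List.cons.injEq] at he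
    rcases Nat.lt_or_ge n m with h1 | h1
    · exact ih h1 he.2
    · have : n = m := by omega
      subst this
      exact h he.1

/-- All boolean words of length `n`. -/
def words : ℕ → Finset (List Bool)
  | 0 => {[]}
  | (n + 1) => (words n).image (List.cons true) ∪ (words n).image (List.cons false)

theorem pre_mem_words (α : ℕ → Bool) (n : ℕ) : pre α n ∈ words n := by
  induction n with
  | zero => simp [pre, words]
  | succ n ih =>
    simp only [pre, words, Finset.mem_union, Finset.mem_image]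
    cases α n
    · right; exact ⟨_, ih, rfl⟩
    · left; exact ⟨_, ih, rfl⟩

theorem mycielski {K : Subgroup (Perm Ω)} (hcl : ClosedGp K) {S : Set (Perm Ω)}
    (hS : Comeagre K S) : ∃ h : (ℕ → Bool) → Perm Ω, (∀ α, h α ∈ K) ∧
      ∀ α β, α ≠ β → (h α)⁻¹ * h β ∈ S := by
  obtain ⟨O, hO, hS⟩ := hS
  obtain ⟨e, he⟩ := exists_surjective_nat Ω
  -- decreasing intersections
  have hO' : ∀ n, DO K (⋂ j ∈ Finset.range (n + 1), O j) := by
    intro n
    induction n with
    | zero => simpa using hO 0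
    | succ n ih =>
      refine (ih.inter (hO (n + 1))).mono ?_
      intro f hf
      simp only [Set.mem_inter_iff, Set.mem_iInter, Finset.mem_range] at hf ⊢
      intro j hj
      rcases Nat.lt_or_ge j (n + 1) with h | h
      · exact hf.1 j h
      · have : j = n + 1 := by omega
        subst this; exact hf.2
  let S' := {p : Finset Ω × (List Bool → Perm Ω) // ∀ s, p.2 s ∈ K}
  let R : ℕ → S' → S' → Prop := fun n p q =>
    p.1.1 ⊆ q.1.1 ∧ (∀ s b, ∀ x ∈ p.1.1, q.1.2 (b :: s) x = p.1.2 s x) ∧ e n ∈ q.1.1 ∧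
      (∀ s ∈ words (n + 1), (q.1.2 s)⁻¹ (e n) ∈ q.1.1) ∧
      ∀ s ∈ words (n + 1), ∀ t ∈ words (n + 1), s ≠ t → ∀ f ∈ K, ∀ g ∈ K,
        (∀ x ∈ q.1.1, f x = q.1.2 s x) → (∀ x ∈ q.1.1, g x = q.1.2 t x) →
          f⁻¹ * g ∈ ⋂ j ∈ Finset.range (n + 1), O j
  have hstep : ∀ n p, ∃ q, R n p q := by
    rintro n ⟨⟨D, F⟩, hF⟩
    obtain ⟨F', D', hD', hF', ha, hP⟩ := shrink (hO' n) (I := List Bool)
      (((words (n + 1)) ×ˢ (words (n + 1))).filter fun p => p.1 ≠ p.2)
      (by intro p hp; rw [Finset.mem_filter] at hp; exact hp.2)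
      (fun s => F s.tail) (fun s => hF _) D
    refine ⟨⟨⟨D' ∪ {e n} ∪ (words (n + 1)).image (fun s => (F' s)⁻¹ (e n)), F'⟩, hF'⟩,
      ?_, ?_, ?_, ?_, ?_⟩
    · exact (hD'.trans Finset.subset_union_left).trans Finset.subset_union_left
    · intro s b x hx
      exact ha (b :: s) x hx
    · exact Finset.mem_union_left _ (Finset.mem_union_right _ (Finset.mem_singleton_self _))
    · intro s hs
      exact Finset.mem_union_right _ (Finset.mem_image_of_mem _ hs)
    · intro s hs t ht hst f hf g hg hfx hgx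
      refine hP (s, t) (by simp [hs, ht, hst]) f hf g hg (fun x hx => hfx x ?_) (fun x hx => hgx x ?_)
      · exact Finset.mem_union_left _ (Finset.mem_union_left _ hx)
      · exact Finset.mem_union_left _ (Finset.mem_union_left _ hx)
  obtain ⟨s, -, hs⟩ := exists_seq R hstep ⟨⟨∅, fun _ => 1⟩, fun _ => K.one_mem⟩
  have hlim : ∀ α : ℕ → Bool, ∃ f ∈ K, ∀ n, ∀ x ∈ (s n).1.1, f x = (s n).1.2 (pre α n) x := by
    intro α
    refine limit hcl (g := fun n => (s n).1.2 (pre α n)) (D := fun n => (s n).1.1)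
      (fun n => (s n).2 _) (fun n => (hs n).1) (fun n => (hs n).2.1 _ _)
      (fun x => by obtain ⟨n, rfl⟩ := he x; exact ⟨n + 1, (hs n).2.2.1⟩)
      (fun x => by
        obtain ⟨n, rfl⟩ := he x
        exact ⟨n + 1, (hs n).2.2.2.1 _ (pre_mem_words _ _)⟩)
  choose h hK hh using hlim
  refine ⟨h, hK, fun α β hαβ => hS _ (K.mul_mem (K.inv_mem (hK α)) (hK β)) fun j => ?_⟩
  obtain ⟨n, hn⟩ := Function.ne_iff.1 hαβ
  have h1 := (hs (max n j)).2.2.2.2 _ (pre_mem_words α _) _ (pre_mem_words β _)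
    (pre_ne hn _ (by omega)) _ (hK α) _ (hK β) (hh α _) (hh β _)
  simp only [Set.mem_iInter, Finset.mem_range] at h1
  exact h1 j (by omega)

end Pool.Agent.SIP
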