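import Mathlib
import Pool.Agent.SIP.Limit

set_option autoImplicit false
set_option linter.unusedVariables false
set_option linter.unusedSectionVars false

/-!
# Good (generic) tuples
-/

namespace Pool.Agent.SIP

open Equiv

variable {Ω : Type} [DecidableEq Ω]

theorem inv_app (f : Perm Ω) (x : Ω) : f⁻¹ (f x) = x := by simp
theorem app_inv (f : Perm Ω) (x : Ω) : f (f⁻¹ x) = x := by simp

/-- The finite set `D` is invariant under `f`. -/
def Inv (f : Perm Ω) (D : Finset Ω) : Prop := ∀ x, x ∈ D ↔ f x ∈ D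

theorem Inv.symm {f : Perm Ω} {D : Finset Ω} (h : Inv f D) : Inv f⁻¹ D := by
  intro x
  have := h (f⁻¹ x)
  rw [app_inv] at this
  exact this.symm

theorem Inv.mul {f g : Perm Ω} {D : Finset Ω} (h : Inv f D) (h' : Inv g D) : Inv (f * g) D := by
  intro x
  rw [h' x, h (g x)]
  rfl

theorem Inv.congr {f g : Perm Ω} {D : Finset Ω} (h : Inv f D) (hg : ∀ x ∈ D, g x = f x) :
    Inv g D := by
  have h1 : D.image g = D := by
    apply Finset.eq_of_subset_of_card_le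
    · intro y hy
      obtain ⟨x, hx, rfl⟩ := Finset.mem_image.1 hy
      rw [hg x hx]
      exact (h x).1 hx
    · rw [Finset.card_image_of_injective _ g.injective]
  intro x
  constructor
  · intro hx
    rw [hg x hx]
    exact (h x).1 hx
  · intro hx
    rw [← h1, Finset.mem_image] at hx
    obtain ⟨y, hy, he⟩ := hx
    rwa [← g.injective he]

theorem Inv.of_forall {f : Perm Ω} {D : Finset Ω} (h : ∀ x ∈ D, f x ∈ D) : Inv f D := by
  have h1 : D.image f = D := by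
    apply Finset.eq_of_subset_of_card_le
    · intro y hy
      obtain ⟨x, hx, rfl⟩ := Finset.mem_image.1 hy
      exact h x hx
    · rw [Finset.card_image_of_injective _ f.injective]
  intro x
  constructor
  · exact h x
  · intro hx
    rw [← h1, Finset.mem_image] at hx
    obtain ⟨y, hy, he⟩ := hx
    rwa [← f.injective he]

/-- The system of axioms. `𝒞` is the family of closed finite sets. -/
structure Sys (K : Subgroup (Perm Ω)) (𝒞 : Set (Finset Ω)) : Prop where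
  closed : ClosedGp K
  inv : ∀ C ∈ 𝒞, ∀ k ∈ K, C.image k ∈ 𝒞
  cofinal : ∀ D : Finset Ω, ∃ C ∈ 𝒞, D ⊆ C
  eppa : ∀ C ∈ 𝒞, ∃ E ∈ 𝒞, C ⊆ E ∧ ∀ A ∈ 𝒞, ∀ k ∈ K, A ⊆ C → (∀ x ∈ A, k x ∈ C) →
    ∃ k' ∈ K, (∀ x ∈ A, k' x = k x) ∧ Inv k' E
  amalg : ∀ D ∈ 𝒞, ∀ A ∈ 𝒞, ∀ E ∈ 𝒞, D ⊆ A → D ⊆ E → ∃ k ∈ K, (∀ x ∈ D, k x = x) ∧
    ∃ F ∈ 𝒞, A ⊆ F ∧ (∀ x ∈ E, k x ∈ F) ∧ ∀ a ∈ K, ∀ e ∈ K, Inv a A → Inv e E → Inv a D →
      (∀ x ∈ D, e x = a x) → ∃ b ∈ K, Inv b F ∧ (∀ x ∈ A, b x = a x) ∧ ∀ x ∈ E, b (k x) = k (e x)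

/-- A tuple (list) of elements of `K` is good if it is locally finite and has the extension
property. -/
structure Good (K : Subgroup (Perm Ω)) (𝒞 : Set (Finset Ω)) (L : List (Perm Ω)) : Prop where
  mem : ∀ f ∈ L, f ∈ K
  lf : ∀ D : Finset Ω, ∃ C ∈ 𝒞, D ⊆ C ∧ ∀ f ∈ L, Inv f C
  ext : ∀ D ∈ 𝒞, ∀ E ∈ 𝒞, D ⊆ E → ∀ L' : List (Perm Ω),
    List.Forall₂ (fun f e => e ∈ K ∧ Inv f D ∧ Inv e E ∧ ∀ x ∈ D, e x = f x) L L' →
    ∃ k ∈ K, (∀ x ∈ D, k x = x) ∧ List.Forall₂ (fun f e => ∀ x ∈ E, f (k x) = k (e x)) L L'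

variable {K : Subgroup (Perm Ω)} {𝒞 : Set (Finset Ω)}

theorem Good.nil (h : Sys K 𝒞) : Good K 𝒞 [] where
  mem := by simp
  lf := fun D => by obtain ⟨C, hC, hD⟩ := h.cofinal D; exact ⟨C, hC, hD, by simp⟩
  ext := fun D _ E _ _ L' hL' => by
    cases hL'
    exact ⟨1, K.one_mem, fun _ _ => rfl, List.Forall₂.nil⟩

/-- Partial conjugacy between two tuples. -/
structure PI (K : Subgroup (Perm Ω)) (𝒞 : Set (Finset Ω)) (L L' : List (Perm Ω)) (C : Finset Ω)
    (k : Perm Ω) : Prop where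
  C_mem : C ∈ 𝒞
  k_mem : k ∈ K
  inv : ∀ f ∈ L, Inv f C
  conj : List.Forall₂ (fun f f' => ∀ x ∈ C, f' (k x) = k (f x)) L L'

theorem PI.symm (hS : Sys K 𝒞) {L L' : List (Perm Ω)} {C : Finset Ω} {k : Perm Ω}
    (h : PI K 𝒞 L L' C k) : PI K 𝒞 L' L (C.image k) k⁻¹ where
  C_mem := hS.inv C h.C_mem k h.k_mem
  k_mem := K.inv_mem h.k_mem
  inv := by
    intro f' hf'
    have h1 := h.inv
    have h2 := h.conj
    clear h
    induction h2 with
    | nil => simp at hf'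
    | @cons a b l l' hab hl ih =>
      rw [List.mem_cons] at hf'
      rcases hf' with rfl | hf'
      · apply Inv.of_forall
        intro y hy
        obtain ⟨x, hx, rfl⟩ := Finset.mem_image.1 hy
        rw [hab x hx]
        exact Finset.mem_image_of_mem _ ((h1 a List.mem_cons_self x).1 hx)
      · exact ih hf' fun f hf => h1 f (List.mem_cons_of_mem _ hf)
  conj := by
    have h1 := h.inv
    have h2 := h.conj
    clear h
    induction h2 with
    | nil => exact List.Forall₂.nil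
    | @cons a b l l' hab hl ih =>
      refine List.Forall₂.cons ?_ (ih fun f hf => h1 f (List.mem_cons_of_mem _ hf))
      intro y hy
      obtain ⟨x, hx, rfl⟩ := Finset.mem_image.1 hy
      rw [hab x hx]
      simp

theorem PI.forward {L L' : List (Perm Ω)} (hL : Good K 𝒞 L) (hL' : Good K 𝒞 L')
    (hS : Sys K 𝒞) {C : Finset Ω} {k : Perm Ω} (h : PI K 𝒞 L L' C k) (D : Finset Ω) :
    ∃ C' k', PI K 𝒞 L L' C' k' ∧ C ⊆ C' ∧ D ⊆ C' ∧ ∀ x ∈ C, k' x = k x := by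
  obtain ⟨E, hE, hDE, hEinv⟩ := hL.lf (C ∪ D)
  have hCE : C ⊆ E := Finset.subset_union_left.trans hDE
  have hs := h.symm hS
  have hd : List.Forall₂ (fun f' e => e ∈ K ∧ Inv f' (C.image k) ∧ Inv e (E.image k) ∧
      ∀ x ∈ C.image k, e x = f' x) L' (L.map fun f => k * f * k⁻¹) := by
    have h1 := hs.inv
    have h2 := h.conj
    have h3 := hL.mem
    clear hL' hs hL
    have h4 := h.k_mem
    clear h
    induction h2 with
    | nil => exact List.Forall₂.nil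
    | @cons a b l l' hab hl ih =>
      refine List.Forall₂.cons ⟨?_, ?_, ?_, ?_⟩ (ih ?_ ?_ ?_)
      · exact K.mul_mem (K.mul_mem h4 (h3 a List.mem_cons_self)) (K.inv_mem h4)
      · exact h1 b List.mem_cons_self
      · apply Inv.of_forall
        intro y hy
        obtain ⟨x, hx, rfl⟩ := Finset.mem_image.1 hy
        simp only [Perm.mul_apply, inv_app]
        exact Finset.mem_image_of_mem _ ((hEinv a List.mem_cons_self x).1 hx)
      · intro y hy
        obtain ⟨x, hx, rfl⟩ := Finset.mem_image.1 hy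
        simp only [Perm.mul_apply, inv_app]
        exact (hab x hx).symm
      · exact fun f hf => hEinv f (List.mem_cons_of_mem _ hf)
      · exact fun f hf => h1 f (List.mem_cons_of_mem _ hf)
      · exact fun f hf => h3 f (List.mem_cons_of_mem _ hf)
  obtain ⟨k', hk', hk'D, hk'c⟩ := hL'.ext (C.image k) hs.C_mem (E.image k)
    (hS.inv E hE k h.k_mem) (Finset.image_subset_image hCE) _ hd
  refine ⟨E, k' * k, ⟨hE, K.mul_mem hk' h.k_mem, hEinv, ?_⟩, hCE,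
    Finset.subset_union_right.trans hDE, ?_⟩
  · rw [List.forall₂_map_right_iff] at hk'c
    refine (List.Forall₂.flip hk'c).imp ?_
    intro f f' hff x hx
    have := hff (k x) (Finset.mem_image_of_mem _ hx)
    simp only [Perm.mul_apply, inv_app] at this ⊢
    exact this
  · intro x hx
    rw [Perm.mul_apply, hk'D _ (Finset.mem_image_of_mem _ hx)]

theorem PI.backward {L L' : List (Perm Ω)} (hL : Good K 𝒞 L) (hL' : Good K 𝒞 L')
    (hS : Sys K 𝒞) {C : Finset Ω} {k : Perm Ω} (h : PI K 𝒞 L L' C k) (D : Finset Ω) :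
    ∃ C' k', PI K 𝒞 L L' C' k' ∧ C ⊆ C' ∧ (∀ y ∈ D, k'⁻¹ y ∈ C') ∧ ∀ x ∈ C, k' x = k x := by
  obtain ⟨E, g, hEg, h1, h2, h3⟩ := PI.forward hL' hL hS (h.symm hS) D
  have hs := hEg.symm hS
  have hCE : C ⊆ E.image g := by
    intro x hx
    rw [Finset.mem_image]
    refine ⟨k x, h1 (Finset.mem_image_of_mem _ hx), ?_⟩
    rw [h3 _ (Finset.mem_image_of_mem _ hx)]
    simp
  refine ⟨E.image g, g⁻¹, hs, hCE, ?_, ?_⟩
  · intro y hy
    rw [inv_inv]
    exact Finset.mem_image_of_mem _ (h2 hy)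
  · intro x hx
    have : g (k x) = x := by
      rw [h3 _ (Finset.mem_image_of_mem _ hx)]
      simp
    rw [Perm.inv_eq_iff_eq, this]

theorem forall2_congr {L L' : List (Perm Ω)} {C : Finset Ω} {k f : Perm Ω}
    (h1 : List.Forall₂ (fun g g' => ∀ x ∈ C, g' (k x) = k (g x)) L L') (h2 : ∀ g ∈ L, Inv g C)
    (h3 : ∀ x ∈ C, f x = k x) : List.Forall₂ (fun g g' => ∀ x ∈ C, g' (f x) = f (g x)) L L' := by
  induction h1 with
  | nil => exact List.Forall₂.nil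
  | @cons a b l l' hab hl ih =>
    refine List.Forall₂.cons ?_ (ih fun f' hf' => h2 f' (List.mem_cons_of_mem _ hf'))
    intro x hx
    rw [h3 x hx, hab x hx, h3 _ ((h2 a List.mem_cons_self x).1 hx)]

variable [Countable Ω] [Nonempty Ω]

/-- Good tuples that agree on a common closed invariant set are conjugate over it. -/
theorem Good.conj {L L' : List (Perm Ω)} (hL : Good K 𝒞 L) (hL' : Good K 𝒞 L') (hS : Sys K 𝒞)
    {C : Finset Ω} {k : Perm Ω} (h : PI K 𝒞 L L' C k) :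
    ∃ g ∈ K, (∀ x ∈ C, g x = k x) ∧ List.Forall₂ (fun f f' => f' * g = g * f) L L' := by
  obtain ⟨e, he⟩ := exists_surjective_nat Ω
  let S := {p : Finset Ω × Perm Ω // PI K 𝒞 L L' p.1 p.2}
  let R : ℕ → S → S → Prop := fun n p q =>
    p.1.1 ⊆ q.1.1 ∧ (∀ x ∈ p.1.1, q.1.2 x = p.1.2 x) ∧ e n ∈ q.1.1 ∧ q.1.2⁻¹ (e n) ∈ q.1.1
  have hstep : ∀ n p, ∃ q, R n p q := by
    rintro n ⟨⟨C, g⟩, hg⟩
    obtain ⟨C1, k1, hP1, hC1, hD1, ha1⟩ := PI.forward hL hL' hS hg {e n}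
    obtain ⟨C2, k2, hP2, hC2, hD2, ha2⟩ := PI.backward hL hL' hS hP1 {e n}
    refine ⟨⟨⟨C2, k2⟩, hP2⟩, hC1.trans hC2, fun x hx => ?_, hC2 (hD1 (Finset.mem_singleton_self _)),
      hD2 _ (Finset.mem_singleton_self _)⟩
    simp only at ha1 ha2 ⊢
    rw [ha2 x (hC1 hx), ha1 x hx]
  obtain ⟨s, hs0, hs⟩ := exists_seq R hstep ⟨⟨C, k⟩, h⟩
  obtain ⟨f, hfK, hf⟩ := limit hS.closed (g := fun n => (s n).1.2) (D := fun n => (s n).1.1)
    (fun n => (s n).2.k_mem) (fun n => (hs n).1) (fun n => (hs n).2.1)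
    (fun x => by obtain ⟨n, rfl⟩ := he x; exact ⟨n + 1, (hs n).2.2.1⟩)
    (fun x => by obtain ⟨n, rfl⟩ := he x; exact ⟨n + 1, (hs n).2.2.2⟩)
  refine ⟨f, hfK, fun x hx => ?_, ?_⟩
  · have := hf 0 x (by simp only [hs0]; exact hx)
    rw [this]; simp only [hs0]
  · have hall : ∀ n, List.Forall₂ (fun g g' => ∀ x ∈ (s n).1.1, g' (f x) = f (g x)) L L' :=
      fun n => forall2_congr (s n).2.conj (s n).2.inv (hf n)
    have hcov : ∀ x, ∃ n, x ∈ (s n).1.1 := fun x => by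
      obtain ⟨n, rfl⟩ := he x; exact ⟨n + 1, (hs n).2.2.1⟩
    rw [List.forall₂_iff_get]
    refine ⟨(h.conj).length_eq, fun i h1 h2 => ?_⟩
    ext x
    obtain ⟨n, hn⟩ := hcov x
    have h3 := (List.forall₂_iff_get.1 (hall n)).2 i h1 h2 x hn
    simpa using h3

end Pool.Agent.SIP
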