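import Mathlib
import Pool.Agent.SIP.Good

set_option autoImplicit false
set_option linter.unusedVariables false
set_option linter.unusedSectionVars false

/-!
# A good tuple extends to a good tuple by a generic element
-/

namespace Pool.Agent.SIP

open Equiv

theorem forall2_and {α β : Type*} {P Q : α → β → Prop} {L : List α} {M : List β}
    (h : List.Forall₂ P L M) (h' : List.Forall₂ Q L M) :
    List.Forall₂ (fun a b => P a b ∧ Q a b) L M := by
  induction h with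
  | nil => exact List.Forall₂.nil
  | cons hab hl ih =>
    cases h' with
    | cons hab' hl' => exact List.Forall₂.cons ⟨hab, hab'⟩ (ih hl')

theorem forall2_exists {α β γ : Type*} {P : α → β → Prop} {Q : α → β → γ → Prop} {L : List α}
    {M : List β} (h : List.Forall₂ P L M) (hQ : ∀ a ∈ L, ∀ b, P a b → ∃ c, Q a b c) :
    ∃ N : List (β × γ), N.map Prod.fst = M ∧ List.Forall₂ (fun a m => Q a m.1 m.2) L N := by
  induction h with
  | nil => exact ⟨[], rfl, List.Forall₂.nil⟩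
  | @cons a b l l' hab hl ih =>
    obtain ⟨c, hc⟩ := hQ a List.mem_cons_self b hab
    obtain ⟨N, hN, hN'⟩ := ih fun a' ha' => hQ a' (List.mem_cons_of_mem _ ha')
    exact ⟨(b, c) :: N, by simp [hN], List.Forall₂.cons hc hN'⟩

theorem forall2_mem {α β : Type*} {P : α → β → Prop} {L : List α}
    {M : List β} (h : List.Forall₂ P L M) : List.Forall₂ (fun a b => a ∈ L ∧ P a b) L M := by
  induction h with
  | nil => exact List.Forall₂.nil
  | @cons a b l l' hab hl ih =>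
    exact List.Forall₂.cons ⟨List.mem_cons_self, hab⟩
      (ih.imp fun a' b' h => ⟨List.mem_cons_of_mem _ h.1, h.2⟩)

theorem forall2_self {α : Type*} {P : α → α → Prop} {L : List α} (h : ∀ a ∈ L, P a a) :
    List.Forall₂ P L L := by
  induction L with
  | nil => exact List.Forall₂.nil
  | cons a l ih =>
    exact List.Forall₂.cons (h a List.mem_cons_self) (ih fun b hb => h b (List.mem_cons_of_mem _ hb))

variable {Ω : Type} [DecidableEq Ω]

/-- The graph of `e` over `E`. -/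
def gr (E : Finset Ω) (e : Perm Ω) : Finset (Ω × Ω) := E.image fun x => (x, e x)

theorem gr_eq {E : Finset Ω} {e e' : Perm Ω} (h : gr E e = gr E e') : ∀ x ∈ E, e x = e' x := by
  intro x hx
  have h1 : (x, e x) ∈ gr E e := Finset.mem_image_of_mem _ hx
  rw [h, gr, Finset.mem_image] at h1
  obtain ⟨y, hy, he⟩ := h1
  simp only [Prod.mk.injEq] at he
  rw [← he.2, he.1]

theorem gr_list {E : Finset Ω} {L M : List (Perm Ω)} (h : L.map (gr E) = M.map (gr E)) :
    List.Forall₂ (fun e e' => ∀ x ∈ E, e x = e' x) L M := by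
  induction L generalizing M with
  | nil =>
    cases M with
    | nil => exact List.Forall₂.nil
    | cons b m => simp at h
  | cons a l ih =>
    cases M with
    | nil => simp at h
    | cons b m =>
      simp only [List.map_cons, List.cons.injEq] at h
      exact List.Forall₂.cons (gr_eq h.1) (ih h.2)

theorem forall2_comp {α β γ : Type*} {P : α → β → Prop} {Q : β → γ → Prop} {R : α → γ → Prop}
    {L : List α} {M : List β} {N : List γ} (h : List.Forall₂ P L M) (h' : List.Forall₂ Q M N)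
    (hR : ∀ a b c, P a b → Q b c → R a c) : List.Forall₂ R L N := by
  induction h generalizing N with
  | nil => cases h'; exact List.Forall₂.nil
  | cons hab hl ih =>
    cases h' with
    | cons hbc hl' => exact List.Forall₂.cons (hR _ _ _ hab hbc) (ih hl')

variable {K : Subgroup (Perm Ω)} {𝒞 : Set (Finset Ω)}

/-- Local finiteness task. -/
def O1 (𝒞 : Set (Finset Ω)) (L : List (Perm Ω)) (D : Finset Ω) : Set (Perm Ω) :=
  {f | ∃ C ∈ 𝒞, D ⊆ C ∧ (∀ g ∈ L, Inv g C) ∧ Inv f C}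

theorem O1_dense (hS : Sys K 𝒞) {L : List (Perm Ω)} (hL : Good K 𝒞 L) (D : Finset Ω) :
    DO K (O1 𝒞 L D) := by
  intro A p hp
  obtain ⟨A1, hA1, hAA1⟩ := hS.cofinal A
  obtain ⟨D0, hD0, hsub, hD0inv⟩ := hL.lf (A1 ∪ A1.image p ∪ D)
  have hA1D : A1 ⊆ D0 := (Finset.subset_union_left.trans Finset.subset_union_left).trans hsub
  have hpA1D : ∀ x ∈ A1, p x ∈ D0 := fun x hx =>
    hsub (Finset.mem_union_left _ (Finset.mem_union_right _ (Finset.mem_image_of_mem _ hx)))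
  have hDD : D ⊆ D0 := Finset.subset_union_right.trans hsub
  obtain ⟨E, hE, hDE, hepp⟩ := hS.eppa D0 hD0
  obtain ⟨p', hp', hp'A, hp'E⟩ := hepp A1 hA1 p hp hA1D hpA1D
  obtain ⟨N, hN1, hN2⟩ := forall2_exists (P := fun f f' => f = f')
    (Q := fun f (f' : Perm Ω) e => e ∈ K ∧ Inv f D0 ∧ Inv e E ∧ ∀ x ∈ D0, e x = f x)
    (forall2_self (L := L) fun a _ => rfl) (by
      intro f hf f' _
      obtain ⟨e, he, he1, he2⟩ := hepp D0 hD0 f (hL.mem f hf) subset_rfl
        (fun x hx => (hD0inv f hf x).1 hx)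
      exact ⟨e, he, hD0inv f hf, he2, he1⟩)
  obtain ⟨k, hk, hkD, hkc⟩ := hL.ext D0 hD0 E hE hDE (N.map Prod.snd)
    (by rw [List.forall₂_map_right_iff]; exact hN2)
  rw [List.forall₂_map_right_iff] at hkc
  have hkinv : ∀ x ∈ D0, k⁻¹ x = x := fun x hx => by
    rw [Perm.inv_eq_iff_eq, hkD x hx]
  have hfA : ∀ x ∈ A1, (k * p' * k⁻¹) x = p x := by
    intro x hx
    simp only [Perm.mul_apply]
    rw [hkinv x (hA1D hx), hp'A x hx, hkD _ (hpA1D x hx)]
  have hDk : D0 ⊆ E.image k := by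
    intro x hx
    rw [Finset.mem_image]
    exact ⟨x, hDE hx, hkD x hx⟩
  refine ⟨A ∪ E.image k, k * p' * k⁻¹, K.mul_mem (K.mul_mem hk hp') (K.inv_mem hk),
    Finset.subset_union_left, fun x hx => hfA x (hAA1 hx), ?_⟩
  intro f hf hfx
  refine ⟨E.image k, hS.inv E hE k hk, hDD.trans hDk, ?_, ?_⟩
  · intro g hg
    have h3 : List.Forall₂ (fun (f : Perm Ω) (m : Perm Ω × Perm Ω) => Inv f (E.image k)) L N := by
      refine (forall2_and hkc hN2).imp ?_
      rintro f m ⟨h1, h2⟩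
      apply Inv.of_forall
      intro y hy
      obtain ⟨x, hx, rfl⟩ := Finset.mem_image.1 hy
      rw [h1 x hx]
      exact Finset.mem_image_of_mem _ ((h2.2.2.1 x).1 hx)
    obtain ⟨i, hi, rfl⟩ := List.mem_iff_getElem.1 hg
    have h4 := List.forall₂_iff_get.1 h3
    exact h4.2 i hi (by rw [← h4.1]; exact hi)
  · apply Inv.congr (f := k * p' * k⁻¹)
    · apply Inv.of_forall
      intro y hy
      obtain ⟨x, hx, rfl⟩ := Finset.mem_image.1 hy
      simp only [Perm.mul_apply, inv_app]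
      exact Finset.mem_image_of_mem _ ((hp'E x).1 hx)
    · intro x hx
      exact hfx x (Finset.mem_union_right _ hx)

/-- Extension task. -/
def O2 (K : Subgroup (Perm Ω)) (𝒞 : Set (Finset Ω)) (L : List (Perm Ω)) (D E : Finset Ω)
    (c : List (Finset (Ω × Ω))) (c0 : Finset (Ω × Ω)) : Set (Perm Ω) :=
  {f | ∀ (L' : List (Perm Ω)) (e : Perm Ω), L'.map (gr E) = c → gr E e = c0 →
    D ∈ 𝒞 → E ∈ 𝒞 → D ⊆ E →
    List.Forall₂ (fun f e => e ∈ K ∧ Inv f D ∧ Inv e E ∧ ∀ x ∈ D, e x = f x) L L' →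
    e ∈ K → Inv f D → Inv e E → (∀ x ∈ D, e x = f x) →
    ∃ k ∈ K, (∀ x ∈ D, k x = x) ∧ List.Forall₂ (fun f e => ∀ x ∈ E, f (k x) = k (e x)) L L' ∧
      ∀ x ∈ E, f (k x) = k (e x)}

theorem O2_dense (hS : Sys K 𝒞) {L : List (Perm Ω)} (hL : Good K 𝒞 L) (D E : Finset Ω)
    (c : List (Finset (Ω × Ω))) (c0 : Finset (Ω × Ω)) : DO K (O2 K 𝒞 L D E c c0) := by
  intro A p hp
  by_cases hv : ∃ (L' : List (Perm Ω)) (e : Perm Ω), L'.map (gr E) = c ∧ gr E e = c0 ∧
    D ∈ 𝒞 ∧ E ∈ 𝒞 ∧ D ⊆ E ∧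
    List.Forall₂ (fun f e => e ∈ K ∧ Inv f D ∧ Inv e E ∧ ∀ x ∈ D, e x = f x) L L' ∧
    e ∈ K ∧ Inv p D ∧ Inv e E ∧ (∀ x ∈ D, e x = p x)
  swap
  · refine ⟨A ∪ D, p, hp, Finset.subset_union_left, fun _ _ => rfl, ?_⟩
    intro f hf hfx L' e h1 h2 h3 h4 h5 h6 h7 h8 h9 h10
    exfalso
    apply hv
    refine ⟨L', e, h1, h2, h3, h4, h5, h6, h7, ?_, h9, ?_⟩
    · exact h8.congr fun x hx => (hfx x (Finset.mem_union_right _ hx)).symm
    · intro x hx
      rw [h10 x hx, hfx x (Finset.mem_union_right _ hx)]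
  obtain ⟨L', e, hc, hc0, hD, hE, hDE, hL', he, hpD, heE, hep⟩ := hv
  -- make the domain of `p` invariant
  obtain ⟨D1, p1, hp1, hAD, hp1A, hO⟩ := O1_dense hS hL (A ∪ D) (A ∪ D) p hp
  obtain ⟨A', hA', hADA', hLA', hpA'⟩ := hO p1 hp1 fun _ _ => rfl
  have hDA' : D ⊆ A' := Finset.subset_union_right.trans hADA'
  obtain ⟨k, hk, hkD, F, hF, hAF, hkEF, ham⟩ := hS.amalg D hD A' hA' E hE hDA' hDE
  have hp1D : ∀ x ∈ D, p1 x = p x := fun x hx => hp1A x (Finset.mem_union_right _ hx)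
  obtain ⟨b0, hb0, hb0F, hb0A, hb0E⟩ := ham p1 hp1 e he hpA' heE
    (hpD.congr hp1D) (fun x hx => by rw [hep x hx, hp1D x hx])
  obtain ⟨N, hN1, hN2⟩ := forall2_exists
    (Q := fun f (e : Perm Ω) b => b ∈ K ∧ Inv f A' ∧ Inv b F ∧ (∀ x ∈ A', b x = f x) ∧
      ∀ x ∈ E, b (k x) = k (e x)) hL' (by
      rintro f hf e ⟨h1, h2, h3, h4⟩
      obtain ⟨b, hb, hbF, hbA, hbE⟩ := ham f (hL.mem f hf) e h1 (hLA' f hf) h3 h2 h4
      exact ⟨b, hb, hLA' f hf, hbF, hbA, hbE⟩)
  obtain ⟨k', hk', hk'A, hk'c⟩ := hL.ext A' hA' F hF hAF (N.map Prod.snd) (by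
    rw [List.forall₂_map_right_iff]
    exact hN2.imp fun f m h => ⟨h.1, h.2.1, h.2.2.1, h.2.2.2.1⟩)
  rw [List.forall₂_map_right_iff] at hk'c
  have hk'inv : ∀ x ∈ A', k'⁻¹ x = x := fun x hx => by
    rw [Perm.inv_eq_iff_eq, hk'A x hx]
  have hfA : ∀ x ∈ A', (k' * b0 * k'⁻¹) x = p1 x := by
    intro x hx
    simp only [Perm.mul_apply]
    rw [hk'inv x hx, hb0A x hx, hk'A _ ((hpA' x).1 hx)]
  refine ⟨A ∪ E.image (k' * k), k' * b0 * k'⁻¹, K.mul_mem (K.mul_mem hk' hb0) (K.inv_mem hk'),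
    Finset.subset_union_left, ?_, ?_⟩
  · intro x hx
    rw [hfA x (hADA' (Finset.mem_union_left _ hx)), hp1A x (Finset.mem_union_left _ hx)]
  · intro f hf hfx L'' e' h1 h2 _ _ _ h6 h7 h8 h9 h10
    have hee : ∀ x ∈ E, e' x = e x := gr_eq (h2.trans hc0.symm)
    have hLL : List.Forall₂ (fun e e' => ∀ x ∈ E, e x = e' x) L' L'' := gr_list (hc.trans h1.symm)
    refine ⟨k' * k, K.mul_mem hk' hk, ?_, ?_, ?_⟩
    · intro x hx
      rw [Perm.mul_apply, hkD x hx, hk'A x (hDA' hx)]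
    · have h11 : List.Forall₂ (fun (f : Perm Ω) (m : Perm Ω × Perm Ω) =>
          ∀ x ∈ E, f ((k' * k) x) = (k' * k) (m.1 x)) L N := by
        refine (forall2_and hk'c hN2).imp ?_
        rintro f m ⟨h12, h13⟩ x hx
        rw [Perm.mul_apply, h12 _ (hkEF x hx), h13.2.2.2.2 x hx]
        rfl
      have h12 : List.Forall₂ (fun f e => ∀ x ∈ E, f ((k' * k) x) = (k' * k) (e x)) L L' := by
        rw [← hN1, List.forall₂_map_right_iff]
        exact h11
      refine forall2_comp h12 hLL ?_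
      intro f e e' h13 h14 x hx
      rw [h13 x hx, h14 x hx]
    · intro x hx
      rw [hfx _ (Finset.mem_union_right _ (Finset.mem_image_of_mem _ hx)), hee x hx]
      simp only [Perm.mul_apply]
      rw [inv_app, hb0E x hx]

variable [Countable Ω] [Nonempty Ω]

theorem Good.comeagre (hS : Sys K 𝒞) {L : List (Perm Ω)} (hL : Good K 𝒞 L) :
    Comeagre K {f | Good K 𝒞 (f :: L)} := by
  have h1 : Comeagre K {f | ∀ D : Finset Ω, f ∈ O1 𝒞 L D} :=
    Comeagre.of_countable fun D => O1_dense hS hL D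
  have h2 : Comeagre K {f | ∀ i : Finset Ω × Finset Ω × List (Finset (Ω × Ω)) × Finset (Ω × Ω),
      f ∈ O2 K 𝒞 L i.1 i.2.1 i.2.2.1 i.2.2.2} :=
    Comeagre.of_countable fun i => O2_dense hS hL _ _ _ _
  refine (h1.inter h2).mono ?_
  rintro f hf ⟨hf1, hf2⟩
  constructor
  · intro g hg
    rw [List.mem_cons] at hg
    rcases hg with rfl | hg
    · exact hf
    · exact hL.mem g hg
  · intro D
    obtain ⟨C, hC, hDC, hLC, hfC⟩ := hf1 D
    refine ⟨C, hC, hDC, ?_⟩
    intro g hg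
    rw [List.mem_cons] at hg
    rcases hg with rfl | hg
    · exact hfC
    · exact hLC g hg
  · intro D hD E hE hDE L' hL'
    cases hL' with
    | @cons _ e _ l' hab hl =>
      obtain ⟨k, hk, hkD, h3, h4⟩ := hf2 (D, E, l'.map (gr E), gr E e) l' e rfl rfl hD hE hDE hl
        hab.1 hab.2.1 hab.2.2.1 hab.2.2.2
      exact ⟨k, hk, hkD, List.Forall₂.cons h4 h3⟩

end Pool.Agent.SIP
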