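import Mathlib
import Pool.Agent.SIP.Extend

set_option autoImplicit false
set_option linter.unusedVariables false
set_option linter.unusedSectionVars false

/-!
# The small index property
-/

namespace Pool.Agent.SIP

open Equiv

variable {Ω : Type} [DecidableEq Ω] [Countable Ω] [Nonempty Ω]
variable {K : Subgroup (Perm Ω)} {𝒞 : Set (Finset Ω)}

/-- A node of the tree. -/
structure Node (K : Subgroup (Perm Ω)) (𝒞 : Set (Finset Ω)) where
  L : List (Perm Ω)
  h : Perm Ω
  C : Finset Ω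
  good : Good K 𝒞 L
  hK : h ∈ K

theorem sip (hS : Sys K 𝒞) (H : Subgroup (Perm Ω)) :
    (∃ D : Finset Ω, ∀ k ∈ K, (∀ x ∈ D, k x = x) → k ∈ H) ∨
    (∃ h : (ℕ → Bool) → Perm Ω, (∀ α, h α ∈ K) ∧ ∀ α β, α ≠ β → (h α)⁻¹ * h β ∉ H) := by
  obtain ⟨e, he⟩ := exists_surjective_nat Ω
  -- Case A
  by_cases hA : ∃ L, Good K 𝒞 L ∧ ∀ f ∈ H, ¬ Good K 𝒞 (f :: L)
  · right
    obtain ⟨L, hL, hLH⟩ := hA
    obtain ⟨h, hK, hh⟩ := mycielski hS.closed (hL.comeagre hS)
    exact ⟨h, hK, fun α β hαβ hmem => hLH _ hmem (hh α β hαβ)⟩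
  -- Case B
  by_cases hB : ∃ (L : List (Perm Ω)) (f : Perm Ω) (D : Finset Ω), Good K 𝒞 L ∧ f ∈ K ∧
      ∀ f' ∈ K, (∀ x ∈ D, f' x = f x) → Good K 𝒞 (f' :: L) → f' ∈ H
  · left
    obtain ⟨L, f, D, hL, hf, hLf⟩ := hB
    refine ⟨D, fun k hk hkD => ?_⟩
    obtain ⟨f', hf', hf'D, h1, h2⟩ := ((hL.comeagre hS).inter
      ((hL.comeagre hS).translate hk)).exists_mem hS.closed D hf
    have h3 := hLf f' hf' hf'D h1
    have h4 := hLf (f' * k) (K.mul_mem hf' hk)
      (fun x hx => by rw [Perm.mul_apply, hkD x hx, hf'D x hx]) h2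
    have : k = f'⁻¹ * (f' * k) := by group
    rw [this]
    exact H.mul_mem (H.inv_mem h3) h4
  -- Case C: the tree
  right
  push Not at hA hB
  have hchild : ∀ (n : ℕ) (ν : Node K 𝒞), ∃ ν' : Bool → Node K 𝒞, ∃ f : Bool → Perm Ω,
      (∀ b, (ν' b).L = f b :: ν.L) ∧ f false ∈ H ∧ f true ∉ H ∧
      (ν' false).h * f false * (ν' false).h⁻¹ = (ν' true).h * f true * (ν' true).h⁻¹ ∧
      (∀ b, ∀ g ∈ ν.L, (ν' b).h * g * (ν' b).h⁻¹ = ν.h * g * ν.h⁻¹) ∧
      (∀ b, ν.C ⊆ (ν' b).C ∧ e n ∈ (ν' b).C ∧ (ν' b).h⁻¹ (e n) ∈ (ν' b).C ∧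
        ∀ x ∈ ν.C, (ν' b).h x = ν.h x) := by
    intro n ν
    obtain ⟨f0, hf0, hg0⟩ := hA ν.L ν.good
    obtain ⟨D, hD, hDsub, hDinv⟩ := hg0.lf (ν.C ∪ {e n, ν.h⁻¹ (e n)})
    obtain ⟨f1, hf1K, hf1D, hg1, hf1⟩ := hB ν.L f0 D ν.good (hg0.mem f0 List.mem_cons_self)
    have hPI : PI K 𝒞 (f1 :: ν.L) (f0 :: ν.L) D 1 := by
      refine ⟨hD, K.one_mem, ?_, ?_⟩
      · intro g hg
        rw [List.mem_cons] at hg
        rcases hg with rfl | hg
        · exact (hDinv f0 List.mem_cons_self).congr hf1D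
        · exact hDinv g (List.mem_cons_of_mem _ hg)
      · refine List.Forall₂.cons ?_ (forall2_self fun g _ x _ => rfl)
        intro x hx
        simp only [Perm.one_apply]
        exact (hf1D x hx).symm
    obtain ⟨k, hk, hkD, hkc⟩ := hg1.conj hg0 hS hPI
    cases hkc with
    | cons h1 h2 =>
      have h2' : ∀ g ∈ ν.L, g * k = k * g := by
        intro g hg
        obtain ⟨i, hi, rfl⟩ := List.mem_iff_getElem.1 hg
        exact (List.forall₂_iff_get.1 h2).2 i hi hi
      have hkD' : ∀ x ∈ D, k x = x := fun x hx => by rw [hkD x hx]; rfl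
      have hkinv : ∀ x ∈ D, k⁻¹ x = x := fun x hx => by rw [Perm.inv_eq_iff_eq, hkD' x hx]
      refine ⟨fun b => if b then ⟨f1 :: ν.L, ν.h * k, D, hg1, K.mul_mem ν.hK hk⟩
        else ⟨f0 :: ν.L, ν.h, D, hg0, ν.hK⟩, fun b => if b then f1 else f0, ?_, ?_, ?_, ?_, ?_, ?_⟩
      · intro b; cases b <;> rfl
      · exact hf0
      · exact hf1
      · simp only [if_true, Bool.false_eq_true, if_false, mul_inv_rev]
        have : k * f1 * k⁻¹ = f0 := by rw [← h1]; group
        calc ν.h * f0 * ν.h⁻¹ = ν.h * (k * f1 * k⁻¹) * ν.h⁻¹ := by rw [this]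
          _ = ν.h * k * f1 * (k⁻¹ * ν.h⁻¹) := by group
      · intro b g hg
        cases b
        · rfl
        · simp only [if_true, mul_inv_rev]
          have : k * g * k⁻¹ = g := by rw [← h2' g hg]; group
          calc ν.h * k * g * (k⁻¹ * ν.h⁻¹) = ν.h * (k * g * k⁻¹) * ν.h⁻¹ := by group
            _ = ν.h * g * ν.h⁻¹ := by rw [this]
      · have hC : ν.C ⊆ D := Finset.subset_union_left.trans hDsub
        have he1 : e n ∈ D := hDsub (Finset.mem_union_right _ (by simp))
        have he2 : ν.h⁻¹ (e n) ∈ D := hDsub (Finset.mem_union_right _ (by simp))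
        intro b
        cases b
        · exact ⟨hC, he1, he2, fun _ _ => rfl⟩
        · refine ⟨hC, he1, ?_, ?_⟩
          · simp only [if_true, mul_inv_rev, Perm.mul_apply]
            rw [hkinv _ he2]
            exact he2
          · intro x hx
            simp only [if_true, Perm.mul_apply]
            rw [hkD' x (hC hx)]
  choose ch fch hL hf0 hf1 hconj hold hC using hchild
  let ν0 : Node K 𝒞 := ⟨[], 1, ∅, Good.nil hS, K.one_mem⟩
  let node : (ℕ → Bool) → ℕ → Node K 𝒞 := fun α n => Nat.rec ν0 (fun n ν => ch n ν (α n)) n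
  have hnode : ∀ α n, node α (n + 1) = ch n (node α n) (α n) := fun α n => rfl
  have hlim : ∀ α, ∃ f ∈ K, ∀ n, ∀ x ∈ (node α n).C, f x = (node α n).h x := by
    intro α
    refine limit hS.closed (g := fun n => (node α n).h) (D := fun n => (node α n).C)
      (fun n => (node α n).hK) (fun n => ?_) (fun n => ?_) (fun x => ?_) (fun x => ?_)
    · simp only [hnode]; exact (hC n _ _).1
    · simp only [hnode]; exact (hC n _ _).2.2.2
    · obtain ⟨n, rfl⟩ := he x; exact ⟨n + 1, by simp only [hnode]; exact (hC n _ _).2.1⟩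
    · obtain ⟨n, rfl⟩ := he x; exact ⟨n + 1, by simp only [hnode]; exact (hC n _ _).2.2.1⟩
  choose h hK hh using hlim
  have hmono : ∀ α n m, n ≤ m → (node α n).C ⊆ (node α m).C := by
    intro α n m hnm
    exact monotone_nat_of_le_succ (f := fun n => (node α n).C)
      (fun n => by simp only [hnode]; exact (hC n _ _).1) hnm
  have hcov : ∀ α x, ∃ n, x ∈ (node α n).C := by
    intro α x
    obtain ⟨n, rfl⟩ := he x
    exact ⟨n + 1, by rw [hnode]; exact (hC n _ _).2.1⟩
  have hLmono : ∀ α n m, n ≤ m → ∀ g ∈ (node α n).L, g ∈ (node α m).L ∧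
      (node α m).h * g * (node α m).h⁻¹ = (node α n).h * g * (node α n).h⁻¹ := by
    intro α n m hnm g hg
    induction m, hnm using Nat.le_induction with
    | base => exact ⟨hg, rfl⟩
    | succ m hm ih =>
      rw [hnode]
      refine ⟨?_, ?_⟩
      · rw [hL]; exact List.mem_cons_of_mem _ ih.1
      · rw [hold m _ _ g ih.1, ih.2]
  have hconjlim : ∀ α n, ∀ g ∈ (node α n).L,
      h α * g * (h α)⁻¹ = (node α n).h * g * (node α n).h⁻¹ := by
    intro α n g hg
    ext x
    obtain ⟨m1, hm1⟩ := hcov α ((h α)⁻¹ x)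
    obtain ⟨m2, hm2⟩ := hcov α (g ((h α)⁻¹ x))
    set m := max n (max m1 m2) with hm
    have h1 : (h α)⁻¹ x ∈ (node α m).C := hmono α m1 m (by omega) hm1
    have h2 : g ((h α)⁻¹ x) ∈ (node α m).C := hmono α m2 m (by omega) hm2
    have h3 : (node α m).h ((h α)⁻¹ x) = x := by
      rw [← hh α m _ h1]; simp
    have h4 : (node α m).h⁻¹ x = (h α)⁻¹ x := by
      rw [Perm.inv_eq_iff_eq, h3]
    rw [← (hLmono α n m (by omega) g hg).2]
    simp only [Perm.mul_apply]
    rw [h4, hh α m _ h2]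
  refine ⟨h, hK, ?_⟩
  -- it suffices to treat a first difference with `α n = false`
  have main : ∀ α β n, (∀ m < n, α m = β m) → α n = false → β n = true →
      (h α)⁻¹ * h β ∉ H := by
    intro α β n hagree hαn hβn hmem
    have hsame : ∀ m ≤ n, node α m = node β m := by
      intro m hm
      induction m with
      | zero => rfl
      | succ m ih => rw [hnode, hnode, ih (by omega), hagree m (by omega)]
    set ν := node α n with hν
    have e1 : node α (n + 1) = ch n ν false := by rw [hnode, hαn]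
    have e2 : node β (n + 1) = ch n ν true := by rw [hnode, hβn, ← hsame n le_rfl]
    have c1 := hconjlim α (n + 1) (fch n ν false) (by rw [e1, hL]; exact List.mem_cons_self)
    have c2 := hconjlim β (n + 1) (fch n ν true) (by rw [e2, hL]; exact List.mem_cons_self)
    rw [e1] at c1
    rw [e2, ← hconj n ν, ← c1] at c2
    apply hf1 n ν
    have : fch n ν true = ((h α)⁻¹ * h β)⁻¹ * fch n ν false * ((h α)⁻¹ * h β) := by
      calc fch n ν true = (h β)⁻¹ * (h β * fch n ν true * (h β)⁻¹) * h β := by group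
        _ = (h β)⁻¹ * (h α * fch n ν false * (h α)⁻¹) * h β := by rw [c2]
        _ = _ := by group
    rw [this]
    exact H.mul_mem (H.mul_mem (H.inv_mem hmem) (hf0 n ν)) hmem
  intro α β hαβ hmem
  obtain ⟨n, hn, hmin⟩ : ∃ n, α n ≠ β n ∧ ∀ m < n, α m = β m := by
    have hex : ∃ n, α n ≠ β n := Function.ne_iff.1 hαβ
    classical
    exact ⟨Nat.find hex, Nat.find_spec hex, fun m hm => not_not.1 (Nat.find_min hex hm)⟩
  cases h1 : α n with
  | false =>
    have h2 : β n = true := by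
      cases h3 : β n
      · exact absurd (h1.trans h3.symm) hn
      · rfl
    exact main α β n hmin h1 h2 hmem
  | true =>
    have h2 : β n = false := by
      cases h3 : β n
      · rfl
      · exact absurd (h1.trans h3.symm) hn
    have h3 := H.inv_mem hmem
    rw [mul_inv_rev, inv_inv] at h3
    exact main β α n (fun m hm => (hmin m hm).symm) h2 h1 h3

end Pool.Agent.SIP
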